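import Pool.Agent.K3h30.RS.Stm

/-!
# RS brick DET: `t_DET : S_DET` and `t_DETF : S_DETF`
-/

set_option autoImplicit false

noncomputable section

namespace Pool.Agent.K3h24.RS.Det

open Pool.Agent.K3h30.RS

/-- Rank one update of a determinant. -/
theorem det_rank_one {R : Type} [CommRing R] {r : ℕ} (X : Matrix (Fin r) (Fin r) R)
    (a : Fin r → R) (l : Fin r → R) :
    Matrix.det (Matrix.of fun i j => X i j + a i * l j) =
      Matrix.det X + ∑ i, a i * Matrix.det (X.updateRow i l) := by
  have key : ∀ s : Finset (Fin r),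
      Matrix.det (Matrix.of fun i j => X i j + (if i ∈ s then a i else 0) * l j) =
        Matrix.det X + ∑ i ∈ s, a i * Matrix.det (X.updateRow i l) := by
    intro s
    induction s using Finset.induction_on with
    | empty =>
      simp only [Finset.notMem_empty, if_false, zero_mul, add_zero, Finset.sum_empty]
      rfl
    | insert k s hk ih =>
      rw [Finset.sum_insert hk]
      set M : Matrix (Fin r) (Fin r) R :=
        Matrix.of fun i j => X i j + (if i ∈ s then a i else 0) * l j with hM
      have h1 : (Matrix.of fun i j => X i j + (if i ∈ insert k s then a i else 0) * l j) =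
          M.updateRow k (X k + a k • l) := by
        ext i j
        by_cases hik : i = k
        · subst hik
          simp [Matrix.updateRow_self]
        · rw [Matrix.updateRow_ne hik]
          simp [hM, Finset.mem_insert, hik]
      rw [h1, Matrix.det_updateRow_add, Matrix.det_updateRow_smul]
      have h2 : M.updateRow k (X k) = M := by
        ext i j
        by_cases hik : i = k
        · subst hik
          simp [Matrix.updateRow_self, hM, hk]
        · rw [Matrix.updateRow_ne hik]
      have h3 : Matrix.det (M.updateRow k l) = Matrix.det (X.updateRow k l) := by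
        refine Matrix.det_eq_of_forall_row_eq_smul_add_const
          (fun i => if i ∈ s then a i else 0) k (by simp [hk]) ?_
        intro i j
        by_cases hik : i = k
        · subst hik
          simp [Matrix.updateRow_self, hk]
        · rw [Matrix.updateRow_ne hik, Matrix.updateRow_ne hik, Matrix.updateRow_self]
          simp [hM]
      rw [h2, h3, ih]
      ring
  have := key Finset.univ
  simpa using this

theorem t_DETF : S_DETF := by
  intro R ι A _ _ Z M T δ r Y a Λ hY ha hδ hΛ
  classical
  induction T using Finset.induction_on generalizing Y a with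
  | empty =>
    refine Submodule.subset_span ⟨Y, hY, ?_⟩
    funext x
    simp
  | insert t T ht ih =>
    have hδT : ∀ t' ∈ T, δ t' ∈ Z := fun t' h => hδ t' (Finset.mem_insert_of_mem h)
    have hΛT : ∀ t' ∈ T, (fun x => δ t' * Λ t' x) ∈ M :=
      fun t' h => hΛ t' (Finset.mem_insert_of_mem h)
    have hδt : δ t ∈ Z := hδ t (Finset.mem_insert_self _ _)
    have hΛt : (fun x => δ t * Λ t x) ∈ M := hΛ t (Finset.mem_insert_self _ _)
    have e1 := ih Y a hY ha hδT hΛT
    have e2 : ∀ k : Fin r, _ := fun k => ih (Function.update Y k (fun x => δ t * Λ t x))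
      (Function.update a k 0)
      (by
        intro i
        by_cases h : i = k
        · subst h; simpa using hΛt
        · simpa [Function.update_of_ne h] using hY i)
      (by
        intro i t'
        by_cases h : i = k
        · subst h; simp [Z.zero_mem]
        · simpa [Function.update_of_ne h] using ha i t') hδT hΛT
    have e3 := Submodule.add_mem _
      (Submodule.smul_mem _ (⟨δ t, hδt⟩ : Z) e1)
      (Submodule.sum_mem _ (fun k (_ : k ∈ Finset.univ) =>
        Submodule.smul_mem _ (⟨a k t, ha k t⟩ : Z) (e2 k)))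
    convert e3 using 1
    funext x
    simp only [Pi.add_apply, Finset.sum_apply, Pi.smul_apply, Subring.smul_def, smul_eq_mul]
    rw [Finset.prod_insert ht]
    set X : Matrix (Fin r) (Fin r) R :=
      Matrix.of fun i j => Y i (x j) + ∑ t' ∈ T, a i t' * Λ t' (x j) with hX
    have h1 : (Matrix.of fun i j => Y i (x j) + ∑ t' ∈ insert t T, a i t' * Λ t' (x j)) =
        Matrix.of fun i j => X i j + a i t * (fun j => Λ t (x j)) j := by
      ext i j
      simp only [Matrix.of_apply, hX]
      rw [Finset.sum_insert ht]
      ring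
    rw [h1, det_rank_one X (fun i => a i t) (fun j => Λ t (x j)), mul_add, Finset.mul_sum,
      mul_assoc]
    congr 1
    refine Finset.sum_congr rfl fun k _ => ?_
    have h2 : (Matrix.of fun i j => Function.update Y k (fun x => δ t * Λ t x) i (x j) +
        ∑ t' ∈ T, Function.update a k 0 i t' * Λ t' (x j)) =
        X.updateRow k (δ t • (fun j => Λ t (x j))) := by
      ext i j
      by_cases h : i = k
      · subst h
        simp [Matrix.updateRow_self]
      · rw [Matrix.updateRow_ne h]
        simp [Function.update_of_ne h, hX]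
    rw [h2, Matrix.det_updateRow_smul]
    ring

/-- the plain version: the determinant times the `δ t` is in `Z` -/
theorem plain {R ι : Type} [CommRing R] [DecidableEq ι] (Z : Subring R) (T : Finset ι)
    (δ : ι → R) (r : ℕ) (Y : Fin r → Fin r → R) (a : Fin r → ι → R) (Λ : ι → Fin r → R)
    (hY : ∀ i j, Y i j ∈ Z) (ha : ∀ i t, a i t ∈ Z) (hδ : ∀ t ∈ T, δ t ∈ Z)
    (hΛ : ∀ t ∈ T, ∀ j, δ t * Λ t j ∈ Z) :
    (∏ t ∈ T, δ t) * Matrix.det (Matrix.of fun i j => Y i j + ∑ t ∈ T, a i t * Λ t j) ∈ Z := by
  let M : Submodule Z (Fin r → R) :=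
    { carrier := {f | ∀ j, f j ∈ Z}
      add_mem' := fun hf hg j => Z.add_mem (hf j) (hg j)
      zero_mem' := fun j => Z.zero_mem
      smul_mem' := fun c f hf j => Z.mul_mem c.2 (hf j) }
  have h := t_DETF R ι (Fin r) Z M T δ r Y a Λ hY ha hδ hΛ
  have h2 : ∀ f : (Fin r → Fin r) → R,
      f ∈ Submodule.span Z {f : (Fin r → Fin r) → R | ∃ y : Fin r → Fin r → R, (∀ i, y i ∈ M) ∧
        f = fun x => Matrix.det (Matrix.of fun i j => y i (x j))} → ∀ x, f x ∈ Z := by
    intro f hf
    induction hf using Submodule.span_induction with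
    | mem f hf =>
      obtain ⟨y, hy, rfl⟩ := hf
      intro x
      simp only [Matrix.det_apply]
      refine Z.sum_mem fun σ _ => ?_
      rw [Units.smul_def]
      refine Z.zsmul_mem (Z.prod_mem fun i _ => ?_) _
      exact hy _ _
    | zero => intro x; exact Z.zero_mem
    | add f g _ _ hf hg => intro x; exact Z.add_mem (hf x) (hg x)
    | smul c f _ hf => intro x; exact Z.mul_mem c.2 (hf x)
  exact h2 _ h id

theorem t_DET : S_DET := by
  intro R ι _ _ Z T δ r Y a Λ hY ha hδ hΛ v N hN hv hz hz'
  obtain ⟨z, hzZ, hz⟩ := hz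
  choose z' hz'Z hz' using hz'
  obtain ⟨T', hve, rfl⟩ : ∃ T' : Finset ι, v ∉ T' ∧ insert v T' = T :=
    ⟨T.erase v, Finset.notMem_erase v T, Finset.insert_erase hv⟩
  have hδT : ∀ t' ∈ T', δ t' ∈ Z := fun t' h => hδ t' (Finset.mem_insert_of_mem h)
  have hΛT : ∀ t' ∈ T', ∀ j, δ t' * Λ t' j ∈ Z :=
    fun t' h => hΛ t' (Finset.mem_insert_of_mem h)
  have e1 := plain Z T' δ r Y a Λ hY ha hδT hΛT
  have e2 : ∀ k : Fin r, _ := fun k => plain Z T' δ r (Function.update Y k z')
    (Function.update a k 0) Λ
    (by
      intro i j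
      by_cases h : i = k
      · subst h; simpa using hz'Z j
      · simpa [Function.update_of_ne h] using hY i j)
    (by
      intro i t'
      by_cases h : i = k
      · subst h; simp [Z.zero_mem]
      · simpa [Function.update_of_ne h] using ha i t') hδT hΛT
  refine ⟨z * _ + ∑ k : Fin r, a k v * _, Z.add_mem (Z.mul_mem hzZ e1)
    (Z.sum_mem fun k _ => Z.mul_mem (ha k v) (e2 k)), ?_⟩
  rw [Finset.prod_insert hve]
  set X : Matrix (Fin r) (Fin r) R :=
    Matrix.of fun i j => Y i j + ∑ t' ∈ T', a i t' * Λ t' j with hX
  have h1 : (Matrix.of fun i j => Y i j + ∑ t' ∈ insert v T', a i t' * Λ t' j) =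
      Matrix.of fun i j => X i j + a i v * Λ v j := by
    ext i j
    simp only [Matrix.of_apply, hX]
    rw [Finset.sum_insert hve]
    ring
  rw [h1, det_rank_one X (fun i => a i v) (Λ v), mul_add, mul_add, Finset.mul_sum, Finset.mul_sum]
  congr 1
  · rw [hz]; ring
  refine Finset.sum_congr rfl fun k _ => ?_
  have h2 : (Matrix.of fun i j => Function.update Y k z' i j +
      ∑ t' ∈ T', Function.update a k 0 i t' * Λ t' j) = X.updateRow k z' := by
    ext i j
    by_cases h : i = k
    · subst h
      simp [Matrix.updateRow_self]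
    · rw [Matrix.updateRow_ne h]
      simp [Function.update_of_ne h, hX]
  rw [h2]
  have h3 : δ v * Matrix.det (X.updateRow k (Λ v)) = N * Matrix.det (X.updateRow k z') := by
    rw [← Matrix.det_updateRow_smul, ← Matrix.det_updateRow_smul]
    congr 2
    funext j
    simp only [Pi.smul_apply, smul_eq_mul]
    exact hz' j
  calc δ v * (∏ t ∈ T', δ t) * (a k v * Matrix.det (X.updateRow k (Λ v)))
      = (∏ t ∈ T', δ t) * a k v * (δ v * Matrix.det (X.updateRow k (Λ v))) := by ring
    _ = _ := by rw [h3]; ring

end Pool.Agent.K3h24.RS.Det
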